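import Mathlib
import Pool.Agent.Y272.EX.Stm
import Pool.Agent.Y272.GA.Fam

/-!
# Balls of polynomials with a cycle which attracts a critical point
-/

set_option autoImplicit false

open Set Filter Metric MeasureTheory Topology

namespace Pool.Agent.Y270.EXF.ALO

open Pool.Agent.Y298.CA (Lyap)
open Pool.Agent.Y272.GA Pool.Agent.Y272.EX

/-- A polynomial with a small value has a root near by. -/
theorem exists_root_near (P : Polynomial ℂ) (z₀ : ℂ) {n : ℕ} {η ρ : ℝ} (hn : P.natDegree = n)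
    (hc : 1 ≤ ‖P.leadingCoeff‖) (hη : ‖P.eval z₀‖ ≤ η) (hρ : 0 < ρ) (h : η < ρ ^ n) :
    ∃ w, P.eval w = 0 ∧ ‖w - z₀‖ ≤ ρ := by
  classical
  by_contra hcon
  push Not at hcon
  have hP : P ≠ 0 := by
    intro h0
    rw [h0, Polynomial.leadingCoeff_zero, norm_zero] at hc
    linarith
  have hs : P.Splits := IsAlgClosed.splits P
  have h1 := hs.eval_eq_prod_roots z₀
  have h2 : P.roots.card = n := by
    rw [← hs.natDegree_eq_card_roots, hn]
  have h3 : ρ ^ n ≤ ‖(P.roots.map (fun a => z₀ - a)).prod‖ := by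
    have h4 : ∀ s : Multiset ℂ, (∀ a ∈ s, ρ ≤ ‖z₀ - a‖) →
        ρ ^ s.card ≤ ‖(s.map (fun a => z₀ - a)).prod‖ := by
      intro s
      induction s using Multiset.induction_on with
      | empty => simp
      | cons a s ih =>
        intro hs
        rw [Multiset.card_cons, Multiset.map_cons, Multiset.prod_cons, norm_mul, pow_succ']
        exact mul_le_mul (hs a (Multiset.mem_cons_self a s))
          (ih fun b hb => hs b (Multiset.mem_cons_of_mem hb)) (by positivity) (norm_nonneg _)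
    have h5 := h4 P.roots (by
      intro a ha
      rw [norm_sub_rev]
      exact (hcon a ((Polynomial.mem_roots hP).mp ha)).le)
    rwa [h2] at h5
  rw [h1, norm_mul] at hη
  have h6 : 1 * ρ ^ n ≤ ‖P.leadingCoeff‖ * ‖(P.roots.map (fun a => z₀ - a)).prod‖ :=
    mul_le_mul hc h3 (by positivity) (norm_nonneg _)
  linarith

variable {d : ℕ}

theorem pol_coeff (b : Fin (d + 1) → ℂ) : (pol d b).coeff d = 1 + b (Fin.last d) := by
  unfold pol
  rw [Polynomial.coeff_add, Polynomial.coeff_X_pow_self, Polynomial.finsetSum_coeff]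
  congr 1
  rw [Finset.sum_eq_single (Fin.last d)]
  · simp
  · intro i _ hi
    have h1 : (i : ℕ) ≠ d := fun h => hi (Fin.ext h)
    rw [Polynomial.coeff_C_mul, Polynomial.coeff_X_pow, if_neg (fun h => h1 h.symm), mul_zero]
  · intro h
    exact absurd (Finset.mem_univ _) h

/-- The leading coefficient of the derivative. -/
theorem pol_der (hd : 2 ≤ d) (b : Fin (d + 1) → ℂ) (hb : ‖b (Fin.last d)‖ ≤ 1 / 2) :
    (pol d b).derivative.natDegree = d - 1 ∧ 1 ≤ ‖(pol d b).derivative.leadingCoeff‖ := by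
  have hdR : (2 : ℝ) ≤ d := by exact_mod_cast hd
  have h1 : (pol d b).derivative.coeff (d - 1) = (1 + b (Fin.last d)) * (d : ℂ) := by
    rw [Polynomial.coeff_derivative, Nat.sub_add_cancel (by omega : 1 ≤ d), pol_coeff]
    congr 1
    have : ((d - 1 : ℕ) : ℂ) = (d : ℂ) - 1 := by
      rw [Nat.cast_sub (by omega), Nat.cast_one]
    rw [this]
    ring
  have h2 : 1 ≤ ‖(1 + b (Fin.last d)) * (d : ℂ)‖ := by
    rw [norm_mul, Complex.norm_natCast]
    have h3 : (1 : ℝ) ≤ ‖1 + b (Fin.last d)‖ + ‖b (Fin.last d)‖ := by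
      calc (1 : ℝ) = ‖(1 + b (Fin.last d)) - b (Fin.last d)‖ := by
            rw [add_sub_cancel_right, norm_one]
        _ ≤ _ := norm_sub_le _ _
    nlinarith
  have h3 : (pol d b).derivative.natDegree ≤ d - 1 :=
    (Polynomial.natDegree_derivative_le _).trans (by have := pol_natDegree b; omega)
  have h4 : (pol d b).derivative.natDegree = d - 1 := by
    refine le_antisymm h3 (Polynomial.le_natDegree_of_ne_zero ?_)
    rw [h1]
    intro h0
    rw [h0, norm_zero] at h2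
    linarith
  refine ⟨h4, ?_⟩
  rw [Polynomial.leadingCoeff, h4, h1]
  exact h2

/-- A critical point near an almost critical point. -/
theorem crit_near (hd : 2 ≤ d) (b : Fin (d + 1) → ℂ) (hb : ‖b (Fin.last d)‖ ≤ 1 / 2) (κ : ℂ)
    {η ρ : ℝ} (hη : ‖dF d b κ‖ ≤ η) (hρ : 0 < ρ) (h : η < ρ ^ (d - 1)) :
    ∃ w, dF d b w = 0 ∧ ‖w - κ‖ ≤ ρ := by
  obtain ⟨h1, h2⟩ := pol_der hd b hb
  obtain ⟨w, hw, hwκ⟩ := exists_root_near (pol d b).derivative κ h1 h2
    (by rw [pol_derivative_eval]; exact hη) hρ h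
  exact ⟨w, by rwa [pol_derivative_eval] at hw, hwκ⟩

/-- A critical point exists. -/
theorem crit_exists (hd : 2 ≤ d) (b : Fin (d + 1) → ℂ) (hb : ‖b (Fin.last d)‖ ≤ 1 / 2) :
    ∃ w, dF d b w = 0 := by
  obtain ⟨h1, -⟩ := pol_der hd b hb
  obtain ⟨w, hw⟩ := IsAlgClosed.exists_root (pol d b).derivative (by
    intro h0
    have := Polynomial.natDegree_eq_zero_iff_degree_le_zero.mpr h0.le
    omega)
  exact ⟨w, by rw [Polynomial.IsRoot.def, pol_derivative_eval] at hw; exact hw⟩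

/-- **Balls of polynomials with a cycle which attracts a critical point.** -/
theorem t (hL : Pool.Agent.Y298.EX.S_LOW) (hT : S_TRAP) : S_ALO := by
  intro d χ c₀ hd hLy ε hε
  have hdR : (2 : ℝ) ≤ d := by exact_mod_cast hd
  have hK1 := one_le_Kd d
  have hK0 := Kd_pos d
  have hd1 : (0 : ℝ) < (d : ℝ) - 1 := by linarith
  set ε' : ℝ := min ε (1 / (d : ℝ) ^ 2) with hε'
  have hε'0 : 0 < ε' := lt_min hε (by positivity)
  have hε'1 : ε' ≤ ε := min_le_left _ _
  have hε'2 : ε' ≤ 1 / (d : ℝ) ^ 2 := min_le_right _ _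
  obtain ⟨C, r₁, hC, hr₁, H⟩ := hL d χ c₀ hd hLy ε' hε'0
  set δ : ℝ := 1 / (2 * ((d : ℝ) - 1)) with hδ
  have hδ0 : 0 < δ := by positivity
  -- the exponents
  have hexp : 1 + ((d : ℝ) - 1) * (ε' / 2) + δ ≤ (d : ℝ) / ((d : ℝ) - 1) + ε := by
    have h1 : (d : ℝ) / ((d : ℝ) - 1) = 1 + 2 * δ := by
      rw [hδ]
      field_simp
      ring
    have h2 : ((d : ℝ) - 1) * (ε' / 2) ≤ δ := by
      rw [hδ, le_div_iff₀ (by positivity)]
      have h3 : ε' * (d : ℝ) ^ 2 ≤ 1 := by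
        rwa [le_div_iff₀ (by positivity)] at hε'2
      have h4 : ε' * ((d : ℝ) - 1) ^ 2 ≤ ε' * (d : ℝ) ^ 2 := by
        gcongr
        linarith
      nlinarith
    rw [h1]
    linarith
  -- the threshold
  obtain ⟨r₂, hr₂0, hr₂⟩ : ∃ r₂ : ℝ, 0 < r₂ ∧ ∀ r : ℝ, 0 < r → r ≤ r₂ → Kd d * r ^ δ < 1 := by
    refine ⟨(1 / (2 * Kd d)) ^ (1 / δ), by positivity, ?_⟩
    intro r hr hr2
    have h1 : r ^ δ ≤ ((1 / (2 * Kd d)) ^ (1 / δ)) ^ δ :=
      Real.rpow_le_rpow hr.le hr2 hδ0.le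
    rw [← Real.rpow_mul (by positivity), one_div_mul_cancel hδ0.ne', Real.rpow_one] at h1
    calc Kd d * r ^ δ ≤ Kd d * (1 / (2 * Kd d)) := by gcongr
      _ = 1 / 2 := by field_simp
      _ < 1 := by norm_num
  refine ⟨C, min (min r₁ r₂) (min (1 / ((d : ℝ) + 1) ^ 2) (1 / 4)), hC, by positivity, ?_⟩
  intro r hr hrr b hb
  have hrr1 : r ≤ r₁ := hrr.trans ((min_le_left _ _).trans (min_le_left _ _))
  have hrr2 : r ≤ r₂ := hrr.trans ((min_le_left _ _).trans (min_le_right _ _))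
  have hrr3 : r ≤ 1 / ((d : ℝ) + 1) ^ 2 := hrr.trans ((min_le_right _ _).trans (min_le_left _ _))
  have hrr4 : r ≤ 1 / 4 := hrr.trans ((min_le_right _ _).trans (min_le_right _ _))
  have hr1 : r ≤ 1 := by linarith
  have hlast : (Fin.last d) ≠ (0 : Fin (d + 1)) := by
    intro h0
    have := congrArg Fin.val h0
    simp at this
    omega
  have hbl : ‖b (Fin.last d)‖ ≤ r := by
    have h1 := norm_le_pi_norm (b - ee d c₀) (Fin.last d)
    rw [Pi.sub_apply, ee_ne d c₀ hlast, sub_zero] at h1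
    exact h1.trans hb
  -- the critical point
  obtain ⟨κ, hκ⟩ := crit_exists hd b (by linarith)
  have hκ1 : ‖κ‖ ≤ 1 := by
    by_contra hcon
    refine crit_le_one (c₀ := c₀) hd ?_ (not_le.mp hcon).le hκ
    rw [le_div_iff₀ (by positivity)] at hrr3
    calc ‖b - ee d c₀‖ * ((d : ℝ) + 1) ^ 2 ≤ r * ((d : ℝ) + 1) ^ 2 := by gcongr
      _ ≤ 1 := hrr3
  obtain ⟨t₁, n, ht₁, Hn⟩ := H r hr hrr1 b hb κ hκ hκ1
  refine ⟨t₁, ht₁, ?_⟩
  intro b' hb'
  rw [mem_closedBall, dist_eq_norm] at hb'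
  have hpow : r ^ ((d : ℝ) / ((d : ℝ) - 1) + ε) ≤ r ^ ((d : ℝ) / ((d : ℝ) - 1) + ε') :=
    Real.rpow_le_rpow_of_exponent_ge hr hr1 (by linarith)
  have htrap := Hn b' (hb'.trans hpow)
  set ρ : ℝ := r ^ (1 / ((d : ℝ) - 1) + ε' / 2) with hρ
  have hρ0 : 0 < ρ := by positivity
  obtain ⟨x, hx, hgx, hdx, hconv⟩ := hT ((FF d b')^[n + 1]) κ ρ hρ0 (differentiable_FFn b' (n + 1))
    htrap
  -- the leading coefficient
  have hsmall : r ^ ((d : ℝ) / ((d : ℝ) - 1) + ε) ≤ r := by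
    calc r ^ ((d : ℝ) / ((d : ℝ) - 1) + ε) ≤ r ^ (1 : ℝ) := by
          refine Real.rpow_le_rpow_of_exponent_ge hr hr1 ?_
          have h1 : 0 ≤ ((d : ℝ) - 1) * (ε' / 2) := by positivity
          linarith
      _ = r := Real.rpow_one r
  have hb'l : ‖b' (Fin.last d)‖ ≤ 1 / 2 := by
    have h1 := norm_le_pi_norm (b' - (b + (Pi.single 0 t₁ : Fin (d + 1) → ℂ))) (Fin.last d)
    rw [Pi.sub_apply, Pi.add_apply, Pi.single_eq_of_ne hlast, add_zero] at h1
    have h2 : ‖b' (Fin.last d)‖ ≤ ‖b' (Fin.last d) - b (Fin.last d)‖ + ‖b (Fin.last d)‖ := by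
      calc ‖b' (Fin.last d)‖ = ‖(b' (Fin.last d) - b (Fin.last d)) + b (Fin.last d)‖ := by
            rw [sub_add_cancel]
        _ ≤ _ := norm_add_le _ _
    linarith
  -- the critical point of `b'`
  have hdF : ‖dF d b' κ‖ ≤ Kd d * r ^ ((d : ℝ) / ((d : ℝ) - 1) + ε) := by
    have h1 := norm_dF_sub b' (b + (Pi.single 0 t₁ : Fin (d + 1) → ℂ)) (z := κ) (by linarith)
    rw [dF_add_single, hκ, sub_zero] at h1
    exact h1.trans (by gcongr)
  have hlt : Kd d * r ^ ((d : ℝ) / ((d : ℝ) - 1) + ε) < ρ ^ (d - 1) := by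
    have h1 : ρ ^ (d - 1) = r ^ (1 + ((d : ℝ) - 1) * (ε' / 2)) := by
      rw [hρ, ← Real.rpow_natCast, ← Real.rpow_mul hr.le, Nat.cast_sub (by omega), Nat.cast_one]
      congr 1
      field_simp
    rw [h1]
    calc Kd d * r ^ ((d : ℝ) / ((d : ℝ) - 1) + ε)
        ≤ Kd d * r ^ (1 + ((d : ℝ) - 1) * (ε' / 2) + δ) := by
          refine mul_le_mul_of_nonneg_left ?_ hK0.le
          exact Real.rpow_le_rpow_of_exponent_ge hr hr1 hexp
      _ = (Kd d * r ^ δ) * r ^ (1 + ((d : ℝ) - 1) * (ε' / 2)) := by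
          rw [Real.rpow_add hr]
          ring
      _ < 1 * r ^ (1 + ((d : ℝ) - 1) * (ε' / 2)) := by
          refine mul_lt_mul_of_pos_right (hr₂ r hr hrr2) (by positivity)
      _ = _ := one_mul _
  obtain ⟨κ', hκ', hκκ'⟩ := crit_near hd b' hb'l κ hdF hρ0 hlt
  refine ⟨n + 1, Nat.succ_pos n, x, hgx, hdx, κ', hκ', ?_⟩
  have h1 := hconv κ' (by rw [mem_closedBall, dist_eq_norm]; exact hκκ')
  refine h1.congr fun k => ?_
  rw [Function.iterate_mul]

end Pool.Agent.Y270.EXF.ALO
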